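import Mathlib
import Pool.Agent.H.MP_8a2df8_gt.A

open Set Filter Topology

namespace Pool.Agent.Results.MP_8a2df8_gt.ProdCompact

/-- continuous real functions with the topology of pointwise convergence -/
abbrev Cp (X : Type*) [TopologicalSpace X] := {f : X → ℝ // Continuous f}

/-- g-space -/
def IsG (Z : Type*) [TopologicalSpace Z] : Prop :=
  ∀ A : Set Z, (∀ B ⊆ A, B.Infinite → ∃ z : Z, AccPt z (𝓟 B)) → IsCompact (closure A)

theorem result (X Y : Type*) [TopologicalSpace X] [TopologicalSpace Y] [CompactSpace Y]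
    (hX : ∀ S : Set (Cp X), IsG S) : ∀ S : Set (Cp (X × Y)), IsG S :=
  H.MP_8a2df8_gt.prod_compact hX

end Pool.Agent.Results.MP_8a2df8_gt.ProdCompact
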